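import Pool.Agent.R602.ZR.TransN

/-!
# Strongly zero-dimensional realcompact spaces are ℕ-compact in ZF

The models `ZermeloAtoms` of Zermelo set theory with atoms (in particular all models of ZF) are
defined in `Pool.Agent.Helper672.ZFA.Statement`, finite sets of a model (`FiniteIn`) in
`Pool.Agent.Y9.ZR.Defs`, and the other notions in `Pool.Agent.R602.ZR.Defs` and
`Pool.Agent.R602.ZR.RcDefs`.

The proof is done inside an arbitrary, possibly nonstandard, model. If `X` is strongly
zero-dimensional, then every nonnegative continuous real function `f` has a continuous `c : X → ℕ`
with `|f - c| < 3 / 4`: separate the points where `f` is near an even number from those where `f`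
is far from all even numbers by one clopen set. So every coordinate of the closed embedding of `X`
into `ℝ ^ J` has small oscillation on the classes given by finitely many continuous `c : X → ℕ`,
and `X` is embedded as a closed subspace of `ℕ ^ C`, where `C` is the set of all continuous
functions `X → ℕ`; the limits of the real coordinates are obtained as infima, without choices.
-/

namespace Pool.Agent.Results.MP_f5c99b_lc.NatCompactInZF

open Pool.Agent.Helper672.ZFA Pool.Agent.R602.ZR

universe u

/-- In every model of Zermelo set theory with atoms (hence in every model of ZF), every strongly
zero-dimensional realcompact space is ℕ-compact. -/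
theorem result (M : Type u) [L.Structure M] [ZermeloAtoms M] (R : M) [Field (El R)]
    [LinearOrder (El R)] [IsStrictOrderedRing (El R)] (hR : RealField R) (X τ : M)
    (_hτ : IsTopology X τ) (hz : StronglyZeroDim R X τ) (hrc : Realcompact R X τ) :
    NatCompact X τ := by
  have : IsModel M := ZermeloAtoms.isModel
  exact QM.natCompact_of hR hz hrc

end Pool.Agent.Results.MP_f5c99b_lc.NatCompactInZF
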